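import Mathlib
import Pool.Agent.Lib.P9bf8b0H.Trans

/-!
MP_9bf8b0_al, Q1: quasi-isometric lamplighter groups over arbitrary finitely generated groups have
quasi-isometric bases; the quasi-isometry of the bases is read off from the cursor.
-/

set_option autoImplicit false

open Multiplicative

noncomputable section

namespace Pool.Agent.Results.MP_9bf8b0_al.CursorMap

universe u v

/-- The word length of `g`: the least number of letters, each in `S` or inverse to an element of `S`,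
whose product is `g`. -/
def wordLength {G : Type u} [Group G] (S : Set G) (g : G) : ℕ :=
  sInf {n | ∃ l : List G, l.length = n ∧ (∀ s ∈ l, s ∈ S ∨ s⁻¹ ∈ S) ∧ l.prod = g}

/-- The word metric. -/
def wordDist {G : Type u} [Group G] (S : Set G) (x y : G) : ℝ := (wordLength S (x⁻¹ * y) : ℝ)

/-- `f` is an `(L, C)`-quasi-isometry for the metrics `dX` and `dY`. -/
def IsQI {X : Type u} {Y : Type v} (dX : X → X → ℝ) (dY : Y → Y → ℝ) (L C : ℝ) (f : X → Y) : Prop :=
  (∀ x x', L⁻¹ * dX x x' - C ≤ dY (f x) (f x') ∧ dY (f x) (f x') ≤ L * dX x x' + C) ∧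
    ∀ y, ∃ x, dY (f x) y ≤ C

/-- The action of `H` on the direct sum of copies of `ZMod 2` indexed by `H`, by left translation of the
coordinates: `(h • c)(x) = c (h⁻¹ * x)`. -/
def shift (H : Type u) [Group H] : H →* MulAut (Multiplicative (H →₀ ZMod 2)) where
  toFun h := AddEquiv.toMultiplicative (Finsupp.domCongr (Equiv.mulLeft h))
  map_one' := by
    apply MulEquiv.ext
    intro c
    apply toAdd.injective
    ext x
    show toAdd c ((1 : H)⁻¹ * x) = toAdd c x
    rw [inv_one, one_mul]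
  map_mul' h h' := by
    apply MulEquiv.ext
    intro c
    apply toAdd.injective
    ext x
    show toAdd c ((h * h')⁻¹ * x) = toAdd c (h'⁻¹ * (h⁻¹ * x))
    rw [mul_inv_rev, mul_assoc]

/-- The lamplighter group: the restricted wreath product of `ZMod 2` and `H`. An element is a pair of a
finitely supported lamp configuration `c` (the component `left`) and a cursor `h` (the component `right`). -/
abbrev Lamplighter (H : Type u) [Group H] := Multiplicative (H →₀ ZMod 2) ⋊[shift H] H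

theorem shift_apply {H : Type u} [Group H] (h : H) (c : Multiplicative (H →₀ ZMod 2)) (x : H) :
    toAdd (shift H h c) x = toAdd c (h⁻¹ * x) := rfl

section iso

open LQ LQ.LL
open scoped Pointwise symmDiff Classical

variable {A : Type} [Group A] {H : Type u} [Group H]

/-- The configuration given by a finite set. -/
def conf (i : A ≃* H) (s : Finset A) : H →₀ ZMod 2 :=
  Finsupp.onFinset (s.map i.toEquiv.toEmbedding) (fun h => if i.symm h ∈ s then 1 else 0) (by
    intro h hh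
    by_cases hs : i.symm h ∈ s
    · rw [Finset.mem_map]
      exact ⟨i.symm h, hs, i.apply_symm_apply h⟩
    · simp [hs] at hh)

theorem conf_apply (i : A ≃* H) (s : Finset A) (h : H) : conf i s h = if i.symm h ∈ s then 1 else 0 := rfl

theorem zmod2 (e : ZMod 2) : e = 0 ∨ e = 1 := by
  fin_cases e
  · left; rfl
  · right; rfl

/-- The lamplighter group of the library and the restricted wreath product. -/
def iso (i : A ≃* H) : LL A ≃* Lamplighter H where
  toFun X := ⟨ofAdd (conf i X.u), i X.q⟩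
  invFun Y := ⟨(toAdd Y.left).support.map i.symm.toEquiv.toEmbedding, i.symm Y.right⟩
  left_inv X := by
    apply LL.ext
    · ext x
      show x ∈ (conf i X.u).support.map _ ↔ _
      rw [Finset.mem_map]
      constructor
      · rintro ⟨h, hh, rfl⟩
        rw [Finsupp.mem_support_iff, conf_apply] at hh
        by_contra hc
        exact hh (if_neg hc)
      · intro hx
        refine ⟨i x, ?_, i.symm_apply_apply x⟩
        rw [Finsupp.mem_support_iff, conf_apply, i.symm_apply_apply, if_pos hx]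
        exact one_ne_zero
    · exact i.symm_apply_apply X.q
  right_inv Y := by
    apply SemidirectProduct.ext
    · show ofAdd (conf i ((toAdd Y.left).support.map i.symm.toEquiv.toEmbedding)) = Y.left
      apply toAdd.injective
      rw [toAdd_ofAdd]
      ext h
      rw [conf_apply]
      have e : i.symm h ∈ (toAdd Y.left).support.map i.symm.toEquiv.toEmbedding ↔
          h ∈ (toAdd Y.left).support := by
        rw [Finset.mem_map]
        constructor
        · rintro ⟨h', hh', e⟩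
          have : h' = h := i.symm.injective e
          rwa [this] at hh'
        · intro hh
          exact ⟨h, hh, rfl⟩
      rcases zmod2 (toAdd Y.left h) with h0 | h0
      · rw [h0, if_neg]
        rw [e, Finsupp.mem_support_iff]
        simp [h0]
      · rw [h0, if_pos]
        rw [e, Finsupp.mem_support_iff, h0]
        exact one_ne_zero
    · exact i.apply_symm_apply Y.right
  map_mul' X Y := by
    apply SemidirectProduct.ext
    · rw [SemidirectProduct.mul_left]
      apply toAdd.injective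
      rw [toAdd_mul]
      ext h
      rw [Finsupp.add_apply, shift_apply]
      show conf i (X.u ∆ (X.q • Y.u)) h = conf i X.u h + conf i Y.u ((i X.q)⁻¹ * h)
      rw [conf_apply, conf_apply, conf_apply]
      have e1 : i.symm ((i X.q)⁻¹ * h) = X.q⁻¹ * i.symm h := by
        rw [map_mul, map_inv, i.symm_apply_apply]
      have e2 : i.symm h ∈ X.q • Y.u ↔ X.q⁻¹ * i.symm h ∈ Y.u := by
        rw [← smul_eq_mul, Finset.inv_smul_mem_iff]
      rw [e1]
      by_cases h1 : i.symm h ∈ X.u <;> by_cases h2 : X.q⁻¹ * i.symm h ∈ Y.u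
      · have : ¬ (i.symm h ∈ X.u ∆ (X.q • Y.u)) := by
          rw [Finset.mem_symmDiff, e2]
          tauto
        rw [if_neg this, if_pos h1, if_pos h2]
        rfl
      · have : i.symm h ∈ X.u ∆ (X.q • Y.u) := by
          rw [Finset.mem_symmDiff, e2]
          tauto
        rw [if_pos this, if_pos h1, if_neg h2, add_zero]
      · have : i.symm h ∈ X.u ∆ (X.q • Y.u) := by
          rw [Finset.mem_symmDiff, e2]
          tauto
        rw [if_pos this, if_neg h1, if_pos h2, zero_add]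
      · have : ¬ (i.symm h ∈ X.u ∆ (X.q • Y.u)) := by
          rw [Finset.mem_symmDiff, e2]
          tauto
        rw [if_neg this, if_neg h1, if_neg h2, add_zero]
    · exact map_mul i X.q Y.q

theorem iso_right (i : A ≃* H) (X : LL A) : (iso i X).right = i X.q := rfl

theorem iso_symm_q (i : A ≃* H) (Y : Lamplighter H) : ((iso i).symm Y).q = i.symm Y.right := rfl

theorem iso_symm_mk (i : A ≃* H) (c : H →₀ ZMod 2) (h : H) :
    (iso i).symm ⟨ofAdd c, h⟩ = ⟨c.support.map i.symm.toEquiv.toEmbedding, i.symm h⟩ := rfl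

end iso

section transport

open LQ LQ.LL P9bf8b0H

theorem wordDist_iso {G : Type} {G' : Type u} [Group G] [Group G'] (i : G ≃* G') (S : Finset G')
    (hS : Subgroup.closure (S : Set G') = ⊤) (x y : G) :
    wordDist (S : Set G') (i x) (i y) =
      ((NG.ofGen (pull i S) (closure_pull i S hS)).len (x⁻¹ * y) : ℝ) := by
  have e1 : (i x)⁻¹ * i y = i (x⁻¹ * y) := by rw [map_mul, map_inv]
  have e2 : wordLength (S : Set G') (i (x⁻¹ * y)) = WL (S : Set G') (i (x⁻¹ * y)) := rfl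
  unfold wordDist
  rw [e1, e2, WL_equiv, ← coe_pull, WL_eq]

theorem isQI_of_nat {A B : Type} {H₁ : Type u} {H₂ : Type v} [Group A] [Group B] [Group H₁] [Group H₂]
    (i : A ≃* H₁) (j : B ≃* H₂) (S₁ : Finset H₁) (S₂ : Finset H₂)
    (hS₁ : Subgroup.closure (S₁ : Set H₁) = ⊤) (hS₂ : Subgroup.closure (S₂ : Set H₂) = ⊤)
    (F : A → B) (M : ℕ)
    (h1 : ∀ x y, (NG.ofGen (pull j S₂) (closure_pull j S₂ hS₂)).len ((F x)⁻¹ * F y) ≤
      M * (NG.ofGen (pull i S₁) (closure_pull i S₁ hS₁)).len (x⁻¹ * y) + M)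
    (h2 : ∀ x y, (NG.ofGen (pull i S₁) (closure_pull i S₁ hS₁)).len (x⁻¹ * y) ≤
      M * (NG.ofGen (pull j S₂) (closure_pull j S₂ hS₂)).len ((F x)⁻¹ * F y) + M)
    (h3 : ∀ z, ∃ x, (NG.ofGen (pull j S₂) (closure_pull j S₂ hS₂)).len ((F x)⁻¹ * z) ≤ M) :
    IsQI (wordDist (S₁ : Set H₁)) (wordDist (S₂ : Set H₂)) ((M : ℝ) + 1) M
      (fun h => j (F (i.symm h))) := by
  have hM : (0 : ℝ) ≤ M := by positivity
  refine ⟨fun x x' => ?_, fun y => ?_⟩
  · obtain ⟨x, rfl⟩ := i.surjective x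
    obtain ⟨x', rfl⟩ := i.surjective x'
    simp only [i.symm_apply_apply]
    rw [wordDist_iso i S₁ hS₁, wordDist_iso j S₂ hS₂]
    have e1 : ((NG.ofGen (pull j S₂) (closure_pull j S₂ hS₂)).len ((F x)⁻¹ * F x') : ℝ) ≤
      M * (NG.ofGen (pull i S₁) (closure_pull i S₁ hS₁)).len (x⁻¹ * x') + M := by
      exact_mod_cast h1 x x'
    have e2 : ((NG.ofGen (pull i S₁) (closure_pull i S₁ hS₁)).len (x⁻¹ * x') : ℝ) ≤
      M * (NG.ofGen (pull j S₂) (closure_pull j S₂ hS₂)).len ((F x)⁻¹ * F x') + M := by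
      exact_mod_cast h2 x x'
    set p : ℝ := ((NG.ofGen (pull i S₁) (closure_pull i S₁ hS₁)).len (x⁻¹ * x') : ℝ) with hp
    set q : ℝ := ((NG.ofGen (pull j S₂) (closure_pull j S₂ hS₂)).len ((F x)⁻¹ * F x') : ℝ) with hq
    have hp0 : 0 ≤ p := by rw [hp]; positivity
    have hq0 : 0 ≤ q := by rw [hq]; positivity
    constructor
    · have : ((M : ℝ) + 1)⁻¹ * p ≤ q + M := by
        rw [inv_mul_le_iff₀ (by positivity)]
        nlinarith
      linarith
    · nlinarith
  · obtain ⟨y, rfl⟩ := j.surjective y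
    obtain ⟨x, hx⟩ := h3 y
    refine ⟨i x, ?_⟩
    simp only [i.symm_apply_apply]
    rw [wordDist_iso j S₂ hS₂]
    exact_mod_cast hx

theorem finiteIndex_iso {A : Type} {H : Type u} [Group A] [Group H] (i : A ≃* H) (g : A)
    (hg : (Subgroup.zpowers g).FiniteIndex) : (Subgroup.zpowers (i g)).FiniteIndex := by
  have e : Subgroup.zpowers (i g) = (Subgroup.zpowers g).map i.toMonoidHom := by
    rw [MonoidHom.map_zpowers]
    rfl
  rw [e]
  constructor
  rw [Subgroup.index_map_of_bijective (by exact i.bijective)]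
  exact hg.index_ne_zero

end transport

/-- **Quasi-isometric lamplighters have quasi-isometric bases.** Let `H₁`, `H₂` be groups with finite
generating sets `S₁`, `S₂`, and `Φ` a quasi-isometry from `ZMod 2 wr H₁` to `ZMod 2 wr H₂` for the word
metrics of arbitrary finite generating sets `T₁`, `T₂`. Then `H₁` and `H₂` are quasi-isometric. If `H₁` is
not an infinite virtually cyclic group, then moreover for every lamp configuration `c` the cursor map
`h ↦ cursor of Φ (c, h)` is a quasi-isometry from `H₁` to `H₂`, with constants which do not depend on `c`,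
and switching lamps has a sublinear effect on the cursor of the image: for every `ε > 0` there is `C'` such
that the cursors of `Φ x` and `Φ x'` are at distance at most `ε * d(x, x') + C'` if `x` and `x'` have the
same cursor. -/
theorem result : ∀ (H₁ : Type u) [Group H₁] (H₂ : Type v) [Group H₂]
    (S₁ : Finset H₁) (S₂ : Finset H₂) (T₁ : Finset (Lamplighter H₁)) (T₂ : Finset (Lamplighter H₂)),
    Subgroup.closure (S₁ : Set H₁) = ⊤ → Subgroup.closure (S₂ : Set H₂) = ⊤ →
    Subgroup.closure (T₁ : Set (Lamplighter H₁)) = ⊤ → Subgroup.closure (T₂ : Set (Lamplighter H₂)) = ⊤ →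
    ∀ (L C : ℝ) (Φ : Lamplighter H₁ → Lamplighter H₂), 1 ≤ L → 0 ≤ C →
    IsQI (wordDist (T₁ : Set (Lamplighter H₁))) (wordDist (T₂ : Set (Lamplighter H₂))) L C Φ →
    (∃ L' : ℝ, 1 ≤ L' ∧ ∃ C' : ℝ, 0 ≤ C' ∧ ∃ f : H₁ → H₂,
      IsQI (wordDist (S₁ : Set H₁)) (wordDist (S₂ : Set H₂)) L' C' f) ∧
    (¬ (Infinite H₁ ∧ ∃ g : H₁, (Subgroup.zpowers g).FiniteIndex) →
      (∃ L' : ℝ, 1 ≤ L' ∧ ∃ C' : ℝ, 0 ≤ C' ∧ ∀ c : H₁ →₀ ZMod 2,
        IsQI (wordDist (S₁ : Set H₁)) (wordDist (S₂ : Set H₂)) L' C'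
          (fun h => (Φ ⟨ofAdd c, h⟩).right)) ∧
      ∀ ε : ℝ, 0 < ε → ∃ C' : ℝ, ∀ x x' : Lamplighter H₁, x.right = x'.right →
        wordDist (S₂ : Set H₂) (Φ x).right (Φ x').right ≤
          ε * wordDist (T₁ : Set (Lamplighter H₁)) x x' + C') := by
  intro H₁ _ H₂ _ S₁ S₂ T₁ T₂ hS₁ hS₂ hT₁ hT₂ L C Φ hL hC hΦ
  obtain ⟨hΦ, hsurj⟩ := hΦ
  obtain ⟨A, _, ⟨i⟩⟩ := P9bf8b0H.exists_small H₁ S₁ hS₁
  obtain ⟨B, _, ⟨j⟩⟩ := P9bf8b0H.exists_small H₂ S₂ hS₂
  set a : LQ.NG A := LQ.NG.ofGen (P9bf8b0H.pull i S₁) (P9bf8b0H.closure_pull i S₁ hS₁) with ha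
  set b : LQ.NG B := LQ.NG.ofGen (P9bf8b0H.pull j S₂) (P9bf8b0H.closure_pull j S₂ hS₂) with hb
  set w₁ : LQ.NG (LQ.LL A) := LQ.NG.ofGen (P9bf8b0H.pull (iso i) T₁)
    (P9bf8b0H.closure_pull (iso i) T₁ hT₁) with hw₁
  set w₂ : LQ.NG (LQ.LL B) := LQ.NG.ofGen (P9bf8b0H.pull (iso j) T₂)
    (P9bf8b0H.closure_pull (iso j) T₂ hT₂) with hw₂
  set ψ : LQ.LL A → LQ.LL B := fun X => (iso j).symm (Φ (iso i X)) with hψ
  have hjψ : ∀ X, iso j (ψ X) = Φ (iso i X) := fun X => (iso j).apply_symm_apply _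
  have d₁ : ∀ X Y : LQ.LL A, wordDist (T₁ : Set (Lamplighter H₁)) (iso i X) (iso i Y) =
      (w₁.len (X⁻¹ * Y) : ℝ) := fun X Y => wordDist_iso (iso i) T₁ hT₁ X Y
  have d₂ : ∀ X Y : LQ.LL B, wordDist (T₂ : Set (Lamplighter H₂)) (iso j X) (iso j Y) =
      (w₂.len (X⁻¹ * Y) : ℝ) := fun X Y => wordDist_iso (iso j) T₂ hT₂ X Y
  set K : ℕ := ⌈L⌉₊ * (⌈C⌉₊ + 1) with hK
  have hL1 : L ≤ ⌈L⌉₊ := Nat.le_ceil L
  have hC1 : C ≤ ⌈C⌉₊ := Nat.le_ceil C
  have hLr : (1 : ℝ) ≤ ⌈L⌉₊ := hL.trans hL1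
  have hCr : (0 : ℝ) ≤ ⌈C⌉₊ := by positivity
  have hKr : (K : ℝ) = ⌈L⌉₊ * (⌈C⌉₊ + 1) := by rw [hK]; push_cast; ring
  have hLK : L ≤ K := by rw [hKr]; nlinarith
  have hCK : C ≤ K := by rw [hKr]; nlinarith
  have hLCK : L * C ≤ K := by rw [hKr]; nlinarith
  obtain ⟨K0, k1, k2, k3⟩ := P9bf8b0H.data_wr a b w₁ w₂ ψ K (by
    intro x y
    have h := (hΦ (iso i x) (iso i y)).2
    rw [← hjψ, ← hjψ, d₁, d₂] at h
    have h0 : (0 : ℝ) ≤ (w₁.len (x⁻¹ * y) : ℝ) := by positivity
    have : (w₂.len ((ψ x)⁻¹ * ψ y) : ℝ) ≤ K * (w₁.len (x⁻¹ * y) : ℝ) + K := by nlinarith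
    exact_mod_cast this) (by
    intro x y
    have h := (hΦ (iso i x) (iso i y)).1
    rw [← hjψ, ← hjψ, d₁, d₂] at h
    have h0 : (0 : ℝ) ≤ (w₂.len ((ψ x)⁻¹ * ψ y) : ℝ) := by positivity
    have h' : L⁻¹ * (w₁.len (x⁻¹ * y) : ℝ) ≤ (w₂.len ((ψ x)⁻¹ * ψ y) : ℝ) + C := by linarith
    rw [inv_mul_le_iff₀ (by linarith)] at h'
    have : (w₁.len (x⁻¹ * y) : ℝ) ≤ K * (w₂.len ((ψ x)⁻¹ * ψ y) : ℝ) + K := by nlinarith
    exact_mod_cast this) (by
    intro z
    obtain ⟨x, hx⟩ := hsurj (iso j z)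
    obtain ⟨x, rfl⟩ := (iso i).surjective x
    refine ⟨x, ?_⟩
    rw [← hjψ, d₂] at hx
    exact_mod_cast hx.trans hCK)
  refine ⟨?_, fun hne => ?_⟩
  · obtain ⟨F, M, f1, f2, f3⟩ := LQ.main_ng a b ⟨ψ, K0, k1, k2, k3⟩
    exact ⟨(M : ℝ) + 1, by have : (0 : ℝ) ≤ M := by positivity
                           linarith, M, by positivity, _, isQI_of_nat i j S₁ S₂ hS₁ hS₂ F M f1 f2 f3⟩
  · have hA : ¬ (Infinite A ∧ LQ.Linear a) := by
      rintro ⟨hi, hl⟩
      obtain ⟨g, hg⟩ := P9bf8b0H.virtually_cyclic a hl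
      exact hne ⟨Infinite.of_injective i i.injective, i g, finiteIndex_iso i g hg⟩
    obtain ⟨⟨M, hM⟩, hD⟩ := P9bf8b0H.cursor_maps a b ψ K0 k1 k2 k3 hA
    refine ⟨⟨(M : ℝ) + 1, by have : (0 : ℝ) ≤ M := by positivity
                             linarith, M, by positivity, fun c => ?_⟩, fun ε hε => ?_⟩
    · obtain ⟨f1, f2, f3⟩ := hM (c.support.map i.symm.toEquiv.toEmbedding)
      have hf := isQI_of_nat i j S₁ S₂ hS₁ hS₂
        (fun x => (ψ ⟨c.support.map i.symm.toEquiv.toEmbedding, x⟩).q) M f1 f2 f3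
      have e : (fun h : H₁ => j ((fun x => (ψ ⟨c.support.map i.symm.toEquiv.toEmbedding, x⟩).q)
          (i.symm h))) = (fun h => (Φ ⟨ofAdd c, h⟩).right) := by
        funext h
        show j (ψ ⟨c.support.map i.symm.toEquiv.toEmbedding, i.symm h⟩).q = _
        rw [← iso_symm_mk, ← iso_right, hjψ, MulEquiv.apply_symm_apply]
      rw [e] at hf
      exact hf
    · obtain ⟨D, hDc⟩ := LQ.change_gen (MulEquiv.refl _) w₁ a.wr
      simp only [MulEquiv.refl_apply] at hDc
      obtain ⟨C', hC'⟩ := hD (ε / (D + 1)) (by positivity)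
      refine ⟨C', fun x x' hxx => ?_⟩
      obtain ⟨X, rfl⟩ := (iso i).surjective x
      obtain ⟨X', rfl⟩ := (iso i).surjective x'
      rw [iso_right, iso_right] at hxx
      have hq : X.q = X'.q := i.injective hxx
      rw [← hjψ, ← hjψ, iso_right, iso_right, wordDist_iso j S₂ hS₂, d₁]
      have e := LQ.DeductAux.lampEq X X' hq
      have h1 := hC' X (X⁻¹ * X').u
      rw [LQ.NG.kap, e, mul_inv_cancel_left] at h1
      have h2 : (a.wr.len (X⁻¹ * X') : ℝ) ≤ D * w₁.len (X⁻¹ * X') := by exact_mod_cast hDc (X⁻¹ * X')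
      have h3 : ε / (D + 1) * (a.wr.len (X⁻¹ * X') : ℝ) ≤ ε * w₁.len (X⁻¹ * X') := by
        have h0 : (0 : ℝ) ≤ (w₁.len (X⁻¹ * X') : ℝ) := by positivity
        have hD0 : (0 : ℝ) ≤ (D : ℝ) := by positivity
        calc ε / (D + 1) * (a.wr.len (X⁻¹ * X') : ℝ)
            ≤ ε / (D + 1) * (D * w₁.len (X⁻¹ * X')) := mul_le_mul_of_nonneg_left h2 (by positivity)
          _ ≤ ε / (D + 1) * ((D + 1) * w₁.len (X⁻¹ * X')) := by
              apply mul_le_mul_of_nonneg_left _ (by positivity)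
              apply mul_le_mul_of_nonneg_right _ h0
              linarith
          _ = ε * w₁.len (X⁻¹ * X') := by field_simp
      exact h1.trans (by linarith)

end Pool.Agent.Results.MP_9bf8b0_al.CursorMap

end
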